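import Pool.Agent.Zk22.WF.G
import Pool.Agent.Zk22.WF.H
import Pool.Agent.Y749.Rig.FFf

/-!
# The strong pair correlation conjecture for almost all frequencies

Let `F(α, T)` be Montgomery's function and `avg h b T = (1 / 2h) ∫_{b-h}^{b+h} F(α, T) dα`. The
strong conjecture says that `F = 1 + o(1)` on `[1, A]`; in the mean it says that `avg h b T → 1` for
all `b ≥ 1 + h`, which (on RH) is the pair correlation conjecture.

(1) We show that the conjecture in the mean for almost all `b` is the statement that the pairs of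
zeros have no point masses: the differences `(γ - γ') log T / 2π` do not concentrate at any point
`x ≠ 0`, and at `x = 0` there are only the pairs of equal simple zeros. Either half is sufficient:
the upper half `avg ≤ 1 + κ` for almost all `b` by itself, and the lower half `avg ≥ 1 - κ` for almost
all `b` together with the case `x = 0` (almost all zeros are simple and not in clusters).

(2) The point mass at each `x` is the Bohr coefficient of the form factor at `x`: lower and upper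
bounds for the density of the pairs with `(γ - γ') log T / 2π` near `x` correspond to the same bounds
for `(2 / L²) ∫_0^L (L - α) cos(2πxα) F(α, T) dα`, `L → ∞` after `T → ∞`. The case `x = 0` (simple
zeros) is classical.

No unproved hypothesis is used: `F` is formed with the ordinates of the zeros.

Idea of the proof. A local Fejér mean of `F` is the cosine transform of the pair measure with an
integrable positive density. Wiener's theorem in a uniform form, with Fejér means, for a family of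
measures; the uniformity comes from Montgomery's bound for the number of pairs in an interval of
length one. One half: the mean value of `avg` over a long interval is at least `1 - o(1)` by the
diagonal, and at most `1 + o(1)` if almost all zeros are simple.
-/

set_option autoImplicit false

open Filter Topology MeasureTheory
open Complex (I)

namespace Pool.Agent.Results.MP_00e05b_nt.AlmostAllFrequencies

/-- the nontrivial zeros of `ζ` with ordinate in `(0, T]` -/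
def zeros (T : ℝ) : Set ℂ :=
  {s : ℂ | 0 < s.re ∧ s.re < 1 ∧ 0 < s.im ∧ s.im ≤ T ∧ riemannZeta s = 0}

/-- the multiplicity of `s` as a zero of `ζ` -/
noncomputable def mult (s : ℂ) : ℕ := analyticOrderNatAt riemannZeta s

/-- `(T / 2π) log T` -/
noncomputable def X (T : ℝ) : ℝ := T / (2 * Real.pi) * Real.log T

/-- Montgomery's function `F(α, T)`:
`((T/2π) log T)⁻¹ ∑_γ ∑_γ' T ^ (iα(γ - γ')) w(γ - γ')`, `w(u) = 4 / (4 + u²)`, over the ordinates of
the zeros in `(0, T]`, with multiplicity; it is real, `.re` only changes the type -/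
noncomputable def F (α T : ℝ) : ℝ :=
  (((X T : ℝ) : ℂ)⁻¹ * ∑ᶠ s ∈ zeros T, ∑ᶠ s' ∈ zeros T,
    (mult s : ℂ) * (mult s' : ℂ) *
      ((T : ℂ) ^ (I * α * (s.im - s'.im)) * (4 / (4 + (s.im - s'.im) ^ 2)))).re

/-- `N(T; α, β)`: the number of the pairs `(γ, γ')` of ordinates in `(0, T]`, with multiplicity,
with `2πα / log T ≤ γ - γ' ≤ 2πβ / log T` (pairs with `γ = γ'` are included) -/
noncomputable def N (T α β : ℝ) : ℕ :=
  ∑ᶠ s ∈ zeros T, ∑ᶠ s' ∈ {s' : ℂ | s' ∈ zeros T ∧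
    2 * Real.pi * α / Real.log T ≤ s.im - s'.im ∧ s.im - s'.im ≤ 2 * Real.pi * β / Real.log T},
      mult s * mult s'

/-- the average of `F` over the window `[b - h, b + h]` -/
noncomputable def avg (h b T : ℝ) : ℝ := 1 / (2 * h) * ∫ α in (b - h)..(b + h), F α T

/-- the Bohr-Fejér coefficient of `F` at `x` -/
noncomputable def coef (x L T : ℝ) : ℝ :=
  2 / L ^ 2 * ∫ α in (0 : ℝ)..L, (L - α) * Real.cos (2 * Real.pi * x * α) * F α T

lemma F_eq {T : ℝ} (hT : 10 ≤ T) (α : ℝ) : F α T = Pool.Agent.Y749.Rig.Fr T α := by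
  have h := Pool.Agent.Y749.Rig.P.F_eq hT α
  have h2 : F α T = (Pool.Agent.Y749.Rig.P.F T α).re := rfl
  rw [h2, h, Complex.ofReal_re]

lemma X_pos {T : ℝ} (hT : 10 ≤ T) : 0 < X T := by
  have h : X T = Pool.Agent.Y749.Rig.nT T := Pool.Agent.Y749.Rig.P.X_nT T
  rw [h]
  exact Pool.Agent.Y749.Rig.nT_pos hT

lemma N_M {T : ℝ} (hT : 10 ≤ T) (α β : ℝ) :
    (N T α β : ℝ) = (Pool.Agent.Y749.Rig.Mp T).real (Set.Icc α β) * X T := by
  have h1 : (N T α β : ℝ) = Pool.Agent.Y744.PC T (Set.Icc α β) :=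
    Pool.Agent.Y744.G.N_eq (by linarith) α β
  have h2 : X T = Pool.Agent.Y744.Xf T := Pool.Agent.Y744.G.X_eq T
  have h3 := X_pos hT
  rw [Pool.Agent.Y749.Rig.Mp_PC hT measurableSet_Icc, h1, ← h2]
  field_simp

lemma avg_eq {T : ℝ} (hT : 10 ≤ T) (h b : ℝ) :
    avg h b T = Pool.Agent.Zk22.WF.wa h (Pool.Agent.Y749.Rig.Fr T) b := by
  unfold avg Pool.Agent.Zk22.WF.wa
  congr 1
  exact intervalIntegral.integral_congr fun α _ => F_eq hT α

lemma coef_eq {T : ℝ} (hT : 10 ≤ T) (x : ℝ) {L : ℝ} (hL : 0 < L) :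
    coef x L T = Pool.Agent.Zk22.WF.cl Pool.Agent.Y749.Rig.Mp Pool.Agent.Zk22.WF.Wz x L T := by
  rw [Pool.Agent.Zk22.WF.cl_Fr x T hL]
  unfold coef
  congr 1
  refine intervalIntegral.integral_congr fun α _ => ?_
  show (L - α) * Real.cos (2 * Real.pi * x * α) * F α T =
    (L - α) * Real.cos (2 * Real.pi * x * α) * Pool.Agent.Y749.Rig.Fr T α
  rw [F_eq hT]

lemma ev_iff {l : Filter ℝ} (hl : l ≤ atTop) {p q : ℝ → Prop} (h : ∀ T, 10 ≤ T → (p T ↔ q T)) :
    (∀ᶠ T in l, p T) ↔ ∀ᶠ T in l, q T := by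
  constructor
  · intro h1
    filter_upwards [h1, hl (eventually_ge_atTop 10)] with T g1 g2 using (h T g2).1 g1
  · intro h1
    filter_upwards [h1, hl (eventually_ge_atTop 10)] with T g1 g2 using (h T g2).2 g1

lemma N_le {T : ℝ} (hT : 10 ≤ T) (α β c : ℝ) :
    (N T α β : ℝ) ≤ c * X T ↔ (Pool.Agent.Y749.Rig.Mp T).real (Set.Icc α β) ≤ c := by
  rw [N_M hT]
  exact mul_le_mul_iff_left₀ (X_pos hT)

lemma N_ge {T : ℝ} (hT : 10 ≤ T) (α β c : ℝ) :
    c * X T ≤ (N T α β : ℝ) ↔ c ≤ (Pool.Agent.Y749.Rig.Mp T).real (Set.Icc α β) := by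
  rw [N_M hT]
  exact mul_le_mul_iff_left₀ (X_pos hT)

/-- **Theorem.** -/
theorem result (l : Filter ℝ) (hl : l ≤ atTop) :
    -- (1) no point masses of the pairs, and the conjecture in the mean for almost all frequencies
    List.TFAE [
      -- (a) no point masses
      ∀ x ε : ℝ, 0 < ε → ∃ δ : ℝ, 0 < δ ∧ ∀ᶠ T in l,
        (N T (x - δ) (x + δ) : ℝ) ≤ ((if x = 0 then 1 else 0) + ε) * X T,
      -- (b) the averages tend to one in mean square
      ∀ h : ℝ, 0 < h → ∀ ε : ℝ, 0 < ε → ∃ B₀ : ℝ, 0 < B₀ ∧ ∀ B : ℝ, B₀ ≤ B → ∀ᶠ T in l,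
        ∫ b in (0 : ℝ)..B, (avg h b T - 1) ^ 2 ≤ ε * B,
      -- (c) the averages tend to one for almost all `b`
      ∀ h : ℝ, 0 < h → ∀ κ ε : ℝ, 0 < κ → 0 < ε → ∃ B₀ : ℝ, 0 < B₀ ∧ ∀ B : ℝ, B₀ ≤ B → ∀ᶠ T in l,
        volume.real {b : ℝ | b ∈ Set.Icc 0 B ∧ κ < |avg h b T - 1|} ≤ ε * B,
      -- (d) the upper half for almost all `b`
      ∀ h : ℝ, 0 < h → ∀ κ ε : ℝ, 0 < κ → 0 < ε → ∃ B₀ : ℝ, 0 < B₀ ∧ ∀ B : ℝ, B₀ ≤ B → ∀ᶠ T in l,
        volume.real {b : ℝ | b ∈ Set.Icc 0 B ∧ 1 + κ < avg h b T} ≤ ε * B,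
      -- (e) the lower half for almost all `b`, and almost all zeros are simple
      (∀ ε : ℝ, 0 < ε → ∃ δ : ℝ, 0 < δ ∧ ∀ᶠ T in l, (N T (-δ) δ : ℝ) ≤ (1 + ε) * X T) ∧
      ∀ h : ℝ, 0 < h → ∀ κ ε : ℝ, 0 < κ → 0 < ε → ∃ B₀ : ℝ, 0 < B₀ ∧ ∀ B : ℝ, B₀ ≤ B → ∀ᶠ T in l,
        volume.real {b : ℝ | b ∈ Set.Icc 0 B ∧ avg h b T < 1 - κ} ≤ ε * B] ∧
    -- (2) each point mass is a Bohr coefficient of the form factor
    ∀ x a : ℝ,
      ((∀ ε : ℝ, 0 < ε → ∃ δ : ℝ, 0 < δ ∧ ∀ᶠ T in l, (N T (x - δ) (x + δ) : ℝ) ≤ (a + ε) * X T) ↔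
        (∀ ε : ℝ, 0 < ε → ∃ L₀ : ℝ, 0 < L₀ ∧ ∀ L : ℝ, L₀ ≤ L → ∀ᶠ T in l, coef x L T ≤ a + ε)) ∧
      ((∀ ε δ : ℝ, 0 < ε → 0 < δ → ∀ᶠ T in l, (a - ε) * X T ≤ (N T (x - δ) (x + δ) : ℝ)) ↔
        (∀ ε L : ℝ, 0 < ε → 0 < L → ∀ᶠ T in l, a - ε ≤ coef x L T)) := by
  obtain ⟨C, hC⟩ := Pool.Agent.Zk22.WF.sys_zeta
  have S := hC l hl
  constructor
  · have key := Pool.Agent.Zk22.WF.zeta_tfae5 hl
    have e1 : (∀ x ε : ℝ, 0 < ε → ∃ δ : ℝ, 0 < δ ∧ ∀ᶠ T in l,
        (N T (x - δ) (x + δ) : ℝ) ≤ ((if x = 0 then 1 else 0) + ε) * X T) ↔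
        Pool.Agent.Zk22.WF.NoAt l Pool.Agent.Y749.Rig.Mp := by
      unfold Pool.Agent.Zk22.WF.NoAt
      exact forall_congr' fun x => forall_congr' fun ε => forall_congr' fun _ => exists_congr fun δ =>
        and_congr_right fun _ => ev_iff hl fun T hT => N_le hT _ _ _
    have e2 : (∀ h : ℝ, 0 < h → ∀ ε : ℝ, 0 < ε → ∃ B₀ : ℝ, 0 < B₀ ∧ ∀ B : ℝ, B₀ ≤ B → ∀ᶠ T in l,
        ∫ b in (0 : ℝ)..B, (avg h b T - 1) ^ 2 ≤ ε * B) ↔
        ∀ h : ℝ, 0 < h → Pool.Agent.Zk22.WF.Msq l fun T =>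
          Pool.Agent.Zk22.WF.wa h (Pool.Agent.Y749.Rig.Fr T) := by
      unfold Pool.Agent.Zk22.WF.Msq
      refine forall_congr' fun h => forall_congr' fun _ => forall_congr' fun ε => forall_congr' fun _ =>
        exists_congr fun B₀ => and_congr_right fun _ => forall_congr' fun B => forall_congr' fun _ =>
        ev_iff hl fun T hT => ?_
      simp_rw [avg_eq hT]
    have e3 : (∀ h : ℝ, 0 < h → ∀ κ ε : ℝ, 0 < κ → 0 < ε → ∃ B₀ : ℝ, 0 < B₀ ∧ ∀ B : ℝ, B₀ ≤ B →
        ∀ᶠ T in l, volume.real {b : ℝ | b ∈ Set.Icc 0 B ∧ κ < |avg h b T - 1|} ≤ ε * B) ↔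
        ∀ h : ℝ, 0 < h → Pool.Agent.Zk22.WF.Mea l fun T =>
          Pool.Agent.Zk22.WF.wa h (Pool.Agent.Y749.Rig.Fr T) := by
      unfold Pool.Agent.Zk22.WF.Mea
      refine forall_congr' fun h => forall_congr' fun _ => forall_congr' fun κ => forall_congr' fun ε =>
        forall_congr' fun _ => forall_congr' fun _ => exists_congr fun B₀ => and_congr_right fun _ =>
        forall_congr' fun B => forall_congr' fun _ => ev_iff hl fun T hT => ?_
      simp_rw [avg_eq hT]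
    have e4 : (∀ h : ℝ, 0 < h → ∀ κ ε : ℝ, 0 < κ → 0 < ε → ∃ B₀ : ℝ, 0 < B₀ ∧ ∀ B : ℝ, B₀ ≤ B →
        ∀ᶠ T in l, volume.real {b : ℝ | b ∈ Set.Icc 0 B ∧ 1 + κ < avg h b T} ≤ ε * B) ↔
        ∀ h : ℝ, 0 < h → Pool.Agent.Zk22.WF.Half l 1 fun T =>
          Pool.Agent.Zk22.WF.wa h (Pool.Agent.Y749.Rig.Fr T) := by
      unfold Pool.Agent.Zk22.WF.Half
      refine forall_congr' fun h => forall_congr' fun _ => forall_congr' fun κ => forall_congr' fun ε =>
        forall_congr' fun _ => forall_congr' fun _ => exists_congr fun B₀ => and_congr_right fun _ =>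
        forall_congr' fun B => forall_congr' fun _ => ev_iff hl fun T hT => ?_
      have e : {b : ℝ | b ∈ Set.Icc 0 B ∧ 1 + κ < avg h b T} = {b : ℝ | b ∈ Set.Icc 0 B ∧
          κ < 1 * (Pool.Agent.Zk22.WF.wa h (Pool.Agent.Y749.Rig.Fr T) b - 1)} := by
        ext b
        simp only [Set.mem_ofPred_eq]
        rw [avg_eq hT, one_mul, lt_sub_iff_add_lt, add_comm κ 1]
      rw [e]
    have e5 : ((∀ ε : ℝ, 0 < ε → ∃ δ : ℝ, 0 < δ ∧ ∀ᶠ T in l, (N T (-δ) δ : ℝ) ≤ (1 + ε) * X T) ∧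
        ∀ h : ℝ, 0 < h → ∀ κ ε : ℝ, 0 < κ → 0 < ε → ∃ B₀ : ℝ, 0 < B₀ ∧ ∀ B : ℝ, B₀ ≤ B → ∀ᶠ T in l,
          volume.real {b : ℝ | b ∈ Set.Icc 0 B ∧ avg h b T < 1 - κ} ≤ ε * B) ↔
        (∀ ε : ℝ, 0 < ε → ∃ δ : ℝ, 0 < δ ∧ ∀ᶠ T in l,
          (Pool.Agent.Y749.Rig.Mp T).real (Set.Icc (-δ) δ) ≤ 1 + ε) ∧
        ∀ h : ℝ, 0 < h → Pool.Agent.Zk22.WF.Half l (-1) fun T =>
          Pool.Agent.Zk22.WF.wa h (Pool.Agent.Y749.Rig.Fr T) := by
      refine and_congr ?_ ?_
      · exact forall_congr' fun ε => forall_congr' fun _ => exists_congr fun δ =>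
          and_congr_right fun _ => ev_iff hl fun T hT => N_le hT _ _ _
      · unfold Pool.Agent.Zk22.WF.Half
        refine forall_congr' fun h => forall_congr' fun _ => forall_congr' fun κ => forall_congr' fun ε =>
          forall_congr' fun _ => forall_congr' fun _ => exists_congr fun B₀ => and_congr_right fun _ =>
          forall_congr' fun B => forall_congr' fun _ => ev_iff hl fun T hT => ?_
        have e : {b : ℝ | b ∈ Set.Icc 0 B ∧ avg h b T < 1 - κ} = {b : ℝ | b ∈ Set.Icc 0 B ∧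
            κ < -1 * (Pool.Agent.Zk22.WF.wa h (Pool.Agent.Y749.Rig.Fr T) b - 1)} := by
          ext b
          simp only [Set.mem_ofPred_eq]
          rw [avg_eq hT, neg_one_mul, neg_sub, lt_sub_comm]
        rw [e]
    rw [e1, e2, e3, e4, e5]
    exact key
  · intro x a
    constructor
    · refine Iff.trans ?_ ((Pool.Agent.Zk22.WF.atom_up S x a).trans ?_)
      · exact forall_congr' fun ε => forall_congr' fun _ => exists_congr fun δ =>
          and_congr_right fun _ => ev_iff hl fun T hT => N_le hT _ _ _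
      · refine forall_congr' fun ε => forall_congr' fun _ => exists_congr fun L₀ =>
          and_congr_right fun hL₀ => forall_congr' fun L => forall_congr' fun hL =>
          ev_iff hl fun T hT => ?_
        rw [coef_eq hT x (lt_of_lt_of_le hL₀ hL)]
    · refine Iff.trans ?_ ((Pool.Agent.Zk22.WF.atom_low S x a).trans ?_)
      · exact forall_congr' fun ε => forall_congr' fun δ => forall_congr' fun _ => forall_congr' fun _ =>
          ev_iff hl fun T hT => N_ge hT _ _ _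
      · refine forall_congr' fun ε => forall_congr' fun L => forall_congr' fun _ => forall_congr' fun hL =>
          ev_iff hl fun T hT => ?_
        rw [coef_eq hT x hL]

end Pool.Agent.Results.MP_00e05b_nt.AlmostAllFrequencies
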