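import Pool.Agent.Zk93.PC.Rh

/-!
# A Bessel inequality for Montgomery's function `F(α, T)`

For `α > 1` the trivial bound for Montgomery's function is `F(α, T) ≤ F(0, T)` (`∼ log T`, on RH).
We show that different frequencies compete for this bound: for all real `α₁, …, α_k` and all `T`
`∑ F(α_i) ≤ F(0) + ((1 - 1/k) F(0) ∑_{i ≠ j} F(α_i - α_j))^(1/2)`.
For `k = 2`, as `F` is even: `F(α) + F(β) ≤ F(0) + (F(0) F(α ± β))^(1/2)`. So the frequencies at
which `F` is larger than half of `F(0)` are closed under sums and differences in a quantitative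
sense. On RH, Montgomery's theorem for `(0, 1)` gives for all families of frequencies whose mutual
distances are in `[ε, 1 - ε]` that the sum (not only each member) of the values `F(α_i, T)` is at most
`(1 + ε) log T`.

The same inequality holds for the masses `m(θ) = ∫ F` of small intervals around the frequencies: on
RH, `∑ m(α_i) ≤ 1 + ((1 - 1/k) ∑_{i ≠ j} m(α_i - α_j))^(1/2)` in the limit; in every interval of
length less than one the point masses have total at most one (the Alternative Hypothesis would give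
mass one at all even integers).

Proof. `w(γ - γ') = ∫ 4 e^(-4s) e^(-s (γ - γ')²) ds`, and a Gaussian weight is a superposition, over
centres `t`, of products `p_t(γ) p_t(γ')` of nonnegative local weights; for every `t` the vectors
`(T^(iα_jγ))_γ` satisfy a Bessel inequality in `ℓ²(p_t)`, and this is integrated over `t` and `s`. The
weight `w` also gives a Harnack inequality `F(α + δ) ≥ T^(-2|δ|) F(α)`, by which values are bounded
by masses of small intervals, to which Montgomery's theorem applies.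
-/

open MeasureTheory Filter
open Complex (I)

namespace Pool.Agent.Results.MP_00e05b_nt.BesselInequality

/-- the nontrivial zeros of `ζ` with ordinate in `(0, T]` -/
def zeros (T : ℝ) : Set ℂ :=
  {s : ℂ | 0 < s.re ∧ s.re < 1 ∧ 0 < s.im ∧ s.im ≤ T ∧ riemannZeta s = 0}

/-- the multiplicity of `s` as a zero of `ζ` -/
noncomputable def mult (s : ℂ) : ℕ := analyticOrderNatAt riemannZeta s

/-- Montgomery's function `F(α, T)`:
`((T/2π) log T)⁻¹ ∑_γ ∑_γ' T ^ (iα(γ - γ')) w(γ - γ')`, `w(u) = 4 / (4 + u²)`, over the ordinates of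
the zeros in `(0, T]`, with multiplicity; it is real, `.re` only changes the type -/
noncomputable def F (α T : ℝ) : ℝ :=
  (((T / (2 * Real.pi) * Real.log T : ℝ) : ℂ)⁻¹ * ∑ᶠ s ∈ zeros T, ∑ᶠ s' ∈ zeros T,
    (mult s : ℂ) * (mult s' : ℂ) *
      ((T : ℂ) ^ (I * α * (s.im - s'.im)) * (4 / (4 + (s.im - s'.im) ^ 2)))).re

/-- the mass of `F(·, T)` on `[θ - δ, θ + δ]` -/
noncomputable def mass (δ θ T : ℝ) : ℝ := ∫ α in (θ - δ)..(θ + δ), F α T

lemma F_eq {T : ℝ} (hT : 10 ≤ T) (α : ℝ) : F α T = Pool.Agent.Y749.Rig.Fr T α := by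
  have h := Pool.Agent.Y749.Rig.P.F_eq hT α
  have h2 : F α T = (Pool.Agent.Y749.Rig.P.F T α).re := rfl
  rw [h2, h, Complex.ofReal_re]

lemma mass_eq {T : ℝ} (hT : 10 ≤ T) (δ θ : ℝ) : mass δ θ T = Pool.Agent.Zk93.PC.Ms T δ θ := by
  unfold mass Pool.Agent.Zk93.PC.Ms
  refine intervalIntegral.integral_congr fun α _ => ?_
  exact F_eq hT α

/-- **A Bessel inequality for Montgomery's function.** -/
theorem result :
    -- the inequality, for all frequencies and all `T`, without hypothesis
    (∀ T : ℝ, 10 ≤ T → ∀ (k : ℕ) (α : Fin k → ℝ),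
      ∑ i, F (α i) T ≤ F 0 T + Real.sqrt ((1 - 1 / k) * F 0 T *
        ∑ i, ∑ j ∈ Finset.univ.erase i, F (α i - α j) T)) ∧
    -- the case of two frequencies
    (∀ T : ℝ, 10 ≤ T → ∀ α β : ℝ,
      F α T + F β T ≤ F 0 T + Real.sqrt (F 0 T * F (α - β) T) ∧
      F α T + F β T ≤ F 0 T + Real.sqrt (F 0 T * F (α + β) T)) ∧
    -- on RH: values at separated frequencies
    (RiemannHypothesis → ∀ ε : ℝ, 0 < ε → ∀ᶠ T : ℝ in atTop, ∀ (k : ℕ) (α : Fin k → ℝ),
      (∀ i j, i ≠ j → ε ≤ |α i - α j| ∧ |α i - α j| ≤ 1 - ε) →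
      ∑ i, F (α i) T ≤ (1 + ε) * Real.log T) ∧
    -- on RH: the inequality for the masses of small intervals
    (RiemannHypothesis → ∀ (K : ℕ) (ε : ℝ), 0 < ε → ∃ δ : ℝ, 0 < δ ∧
      ∀ᶠ T : ℝ in atTop, ∀ k : ℕ, k ≤ K → ∀ α : Fin k → ℝ,
      ∑ i, mass δ (α i) T ≤ 1 + ε + Real.sqrt ((1 - 1 / k) *
        ∑ i, ∑ j ∈ Finset.univ.erase i, mass ε (α i - α j) T)) ∧
    -- on RH: masses at separated points in an interval of length less than one
    (RiemannHypothesis → ∀ ε : ℝ, 0 < ε → ∃ δ : ℝ, 0 < δ ∧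
      ∀ᶠ T : ℝ in atTop, ∀ (k : ℕ) (α : Fin k → ℝ),
      (∀ i j, i ≠ j → ε ≤ |α i - α j| ∧ |α i - α j| ≤ 1 - ε) →
      ∑ i, mass δ (α i) T ≤ 1 + ε) := by
  have hA : ∀ T : ℝ, 10 ≤ T → ∀ (k : ℕ) (α : Fin k → ℝ),
      ∑ i, F (α i) T ≤ F 0 T + Real.sqrt ((1 - 1 / k) * F 0 T *
        ∑ i, ∑ j ∈ Finset.univ.erase i, F (α i - α j) T) := by
    intro T hT k α
    simp_rw [F_eq hT]
    rcases Nat.eq_zero_or_pos k with h0 | h0
    · subst h0
      have h1 := Pool.Agent.Y749.Rig.Fr_nonneg hT 0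
      simp only [Finset.univ_eq_empty, Finset.sum_empty]
      positivity
    · have : Nonempty (Fin k) := ⟨⟨0, h0⟩⟩
      have h := Pool.Agent.Zk93.PC.bes_Fr hT α
      rwa [Fintype.card_fin] at h
  have hB : ∀ T : ℝ, 10 ≤ T → ∀ α β : ℝ,
      F α T + F β T ≤ F 0 T + Real.sqrt (F 0 T * F (α - β) T) := by
    intro T hT α β
    have h := hA T hT 2 ![α, β]
    have e1 : ∑ i, F (![α, β] i) T = F α T + F β T := by
      rw [Fin.sum_univ_two]
      rfl
    have hev : F (β - α) T = F (α - β) T := by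
      rw [F_eq hT, F_eq hT, ← Pool.Agent.Y749.Rig.Fr_even, neg_sub]
    have e2 : ∑ i, ∑ j ∈ Finset.univ.erase i, F (![α, β] i - ![α, β] j) T =
        2 * F (α - β) T := by
      rw [Fin.sum_univ_two]
      have h0 : (Finset.univ.erase (0 : Fin 2)) = {1} := by decide
      have h1 : (Finset.univ.erase (1 : Fin 2)) = {0} := by decide
      rw [h0, h1, Finset.sum_singleton, Finset.sum_singleton]
      show F (α - β) T + F (β - α) T = _
      rw [hev]
      ring
    rw [e1, e2] at h
    refine h.trans (le_of_eq ?_)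
    congr 2
    push_cast
    ring
  refine ⟨hA, ?_, ?_, ?_, ?_⟩
  · intro T hT α β
    refine ⟨hB T hT α β, ?_⟩
    have h := hB T hT α (-β)
    have hev : F (-β) T = F β T := by
      rw [F_eq hT, F_eq hT, Pool.Agent.Y749.Rig.Fr_even]
    rwa [hev, sub_neg_eq_add] at h
  · intro RH ε hε
    have hε' : 0 < min ε 1 := lt_min hε one_pos
    filter_upwards [Pool.Agent.Zk93.PC.value_sep RH hε' (min_le_right _ _),
      eventually_ge_atTop 10] with T hT hT10 k α hα
    have h := hT k α fun i j hij => ⟨(min_le_left _ _).trans (hα i j hij).1,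
      (hα i j hij).2.trans (by linarith [min_le_left ε 1])⟩
    simp_rw [F_eq hT10]
    refine h.trans ?_
    have hL : 0 ≤ Real.log T := Real.log_nonneg (by linarith)
    have := min_le_left ε 1
    gcongr
  · intro RH K ε hε
    have hε' : 0 < min ε 1 := lt_min hε one_pos
    obtain ⟨δ, hδ, h⟩ := Pool.Agent.Zk93.PC.mass_main RH K hε' (min_le_right _ _)
    refine ⟨δ, hδ, ?_⟩
    filter_upwards [h, eventually_ge_atTop 10] with T hT hT10 k hk α
    simp_rw [mass_eq hT10]
    rcases Nat.eq_zero_or_pos k with h0 | h0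
    · subst h0
      simp only [Finset.univ_eq_empty, Finset.sum_empty]
      positivity
    have h1 := hT k h0 hk α
    have hm : ∀ θ : ℝ, Pool.Agent.Zk93.PC.Ms T (min ε 1) θ ≤ Pool.Agent.Zk93.PC.Ms T ε θ := by
      intro θ
      have := min_le_left ε 1
      exact Pool.Agent.Zk93.PC.Ms_mono hT10 hε'.le (by linarith) (by linarith)
    refine h1.trans ?_
    have hk1 : (1 : ℝ) ≤ k := by exact_mod_cast h0
    have hc : 0 ≤ 1 - 1 / (k : ℝ) := by
      rw [sub_nonneg, div_le_one (by linarith)]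
      exact hk1
    have := min_le_left ε 1
    gcongr with i _ j _
    exact hm _
  · intro RH ε hε
    have hε' : 0 < min ε 1 := lt_min hε one_pos
    obtain ⟨δ, hδ, h⟩ := Pool.Agent.Zk93.PC.mass_sep RH hε' (min_le_right _ _)
    refine ⟨δ, hδ, ?_⟩
    filter_upwards [h, eventually_ge_atTop 10] with T hT hT10 k α hα
    have h := hT k α fun i j hij => ⟨(min_le_left _ _).trans (hα i j hij).1,
      (hα i j hij).2.trans (by linarith [min_le_left ε 1])⟩
    simp_rw [mass_eq hT10]
    have := min_le_left ε 1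
    linarith

end Pool.Agent.Results.MP_00e05b_nt.BesselInequality
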