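import Pool.Agent.Zk99.PR.E

/-!
# Long averages of the form factor, repulsion of zeros, and the lower half of pair correlation

Let `F(α, T)` be Montgomery's function and let `N(T; -δ, δ)` be the number of the pairs of zeros
whose ordinates differ by at most `2πδ / log T` (with multiplicity, equal ordinates included).

(1) For `0 < θ < 2`: the zeros are almost all simple with `≪ δ^θ` close pairs, that is
`N(T; -δ, δ) ≤ (1 + C δ^θ + o(1)) (T / 2π) log T`, if and only if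
`∫_0^L (L - α) F(α, T) dα ≤ L² / 2 + O(L^(2 - θ)) + o(1)`; also with `o` in place of `O`. The case
`θ = 0` is the classical criterion for the simplicity of almost all zeros.

(2) On RH the pair correlation conjecture holds if and only if `F ≥ 1` in the mean beyond `1` and
`N(T; -δ, δ) ≤ (1 + o(δ)) (T / 2π) log T` (`δ → 0`). So a very weak form of repulsion together with
the lower half of the conjecture for the form factor gives the conjecture. (The upper half is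
sufficient by itself, this is in the starting library.)

(3) On RH and if the lower half holds: for `0 < θ ≤ 1`,
`N(T; -δ, δ) ≤ (1 + O(δ^θ) + o(1)) (T / 2π) log T` for `0 < δ ≤ 1` if and only if
`∫_0^b F(α, T) dα ≤ b + O(b^(1 - θ)) + o(1)` for `b ≥ 1`. So (`θ = 1`) the total excess of the form
factor is finite if and only if the density of the close pairs is bounded.

(4) The lower half of the strong conjecture, with the weak repulsion, implies that
`F(α, T) → 1` in `L¹(1, A)` for all `A`.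

Idea of the proof. The Fejer mean `(2 / L²) ∫_0^L (L - α) F dα` is the sum over the pairs of the
Fejer kernel `(sin (π L x) / (π L x))²`. The kernel is `≥ 4 / π²` for `|x| ≤ 1 / 2L` and
`≤ 1 / (π L x)²`; dyadic decomposition. For (2): if the mean over a long interval is bounded above
with an error `o(L)` and the mean over each bounded interval is bounded below, then no mean over a
bounded interval can be large.
-/

set_option autoImplicit false

open Filter Topology MeasureTheory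
open Complex (I)

namespace Pool.Agent.Results.MP_00e05b_nt.LowerHalfAndRepulsion

/-- the nontrivial zeros of `ζ` with ordinate in `(0, T]` -/
def zeros (T : ℝ) : Set ℂ :=
  {s : ℂ | 0 < s.re ∧ s.re < 1 ∧ 0 < s.im ∧ s.im ≤ T ∧ riemannZeta s = 0}

/-- the multiplicity of `s` as a zero of `ζ` -/
noncomputable def mult (s : ℂ) : ℕ := analyticOrderNatAt riemannZeta s

/-- `(T / 2π) log T` -/
noncomputable def X (T : ℝ) : ℝ := T / (2 * Real.pi) * Real.log T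

/-- Montgomery's function `F(α, T)`:
`((T/2π) log T)⁻¹ ∑_γ ∑_γ' T ^ (iα(γ - γ')) w(γ - γ')`, `w(u) = 4 / (4 + u²)`, over the ordinates of
the zeros in `(0, T]`, with multiplicity; it is real, `.re` only changes the type -/
noncomputable def F (α T : ℝ) : ℝ :=
  (((X T : ℝ) : ℂ)⁻¹ * ∑ᶠ s ∈ zeros T, ∑ᶠ s' ∈ zeros T,
    (mult s : ℂ) * (mult s' : ℂ) *
      ((T : ℂ) ^ (I * α * (s.im - s'.im)) * (4 / (4 + (s.im - s'.im) ^ 2)))).re

/-- `N(T; α, β)`: the number of the pairs `(γ, γ')` of ordinates in `(0, T]`, with multiplicity,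
with `2πα / log T ≤ γ - γ' ≤ 2πβ / log T` (pairs with `γ = γ'` are included) -/
noncomputable def N (T α β : ℝ) : ℕ :=
  ∑ᶠ s ∈ zeros T, ∑ᶠ s' ∈ {s' : ℂ | s' ∈ zeros T ∧
    2 * Real.pi * α / Real.log T ≤ s.im - s'.im ∧ s.im - s'.im ≤ 2 * Real.pi * β / Real.log T},
      mult s * mult s'

/-- the density of the pair correlation conjecture:
`∫_α^β (1 - (sin πu / πu)²) du + δ(α, β)`, where `δ(α, β) = 1` if `0 ∈ [α, β]` and `0` otherwise -/
noncomputable def P (α β : ℝ) : ℝ :=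
  (∫ u in α..β, (1 - (Real.sin (Real.pi * u) / (Real.pi * u)) ^ 2)) +
    if α ≤ 0 ∧ 0 ≤ β then 1 else 0

/-- Montgomery's pair correlation conjecture along `l` (`l = atTop` is the conjecture; `l` may also
be the filter of a sequence of `T` tending to infinity) -/
def PairCorrelation (l : Filter ℝ) : Prop := ∀ α β : ℝ, α < β →
  Asymptotics.IsEquivalent l (fun T => (N T α β : ℝ)) (fun T => P α β * X T)

lemma F_eq {T : ℝ} (hT : 10 ≤ T) (α : ℝ) : F α T = Pool.Agent.Y749.Rig.Fr T α := by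
  have h := Pool.Agent.Y749.Rig.P.F_eq hT α
  have h2 : F α T = (Pool.Agent.Y749.Rig.P.F T α).re := rfl
  rw [h2, h, Complex.ofReal_re]

lemma X_pos {T : ℝ} (hT : 10 ≤ T) : 0 < X T := by
  have h : X T = Pool.Agent.Y749.Rig.nT T := Pool.Agent.Y749.Rig.P.X_nT T
  rw [h]
  exact Pool.Agent.Y749.Rig.nT_pos hT

lemma N_PP {T : ℝ} (hT : 10 ≤ T) (δ : ℝ) :
    (N T (-δ) δ : ℝ) = Pool.Agent.Zk99.PR.PP T δ * X T := by
  have h1 : (N T (-δ) δ : ℝ) = Pool.Agent.Y744.PC T (Set.Icc (-δ) δ) :=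
    Pool.Agent.Y744.G.N_eq (by linarith) (-δ) δ
  have h2 : X T = Pool.Agent.Y744.Xf T := Pool.Agent.Y744.G.X_eq T
  have h3 := X_pos hT
  unfold Pool.Agent.Zk99.PR.PP
  rw [Pool.Agent.Y749.Rig.Mp_PC hT measurableSet_Icc, h1, ← h2]
  field_simp

lemma int_F {T : ℝ} (hT : 10 ≤ T) (a b : ℝ) :
    ∫ α in a..b, F α T = ∫ α in a..b, Pool.Agent.Y749.Rig.Fr T α :=
  intervalIntegral.integral_congr fun α _ => F_eq hT α

lemma FJ_F {T : ℝ} (hT : 10 ≤ T) (L : ℝ) :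
    ∫ α in (0 : ℝ)..L, (L - α) * F α T = Pool.Agent.Zk99.PR.FJ T L := by
  unfold Pool.Agent.Zk99.PR.FJ
  refine intervalIntegral.integral_congr fun α _ => ?_
  show (L - α) * F α T = (L - α) * Pool.Agent.Y749.Rig.Fr T α
  rw [F_eq hT]

lemma ev_iff {l : Filter ℝ} (hl : l ≤ atTop) {p q : ℝ → Prop} (h : ∀ T, 10 ≤ T → (p T ↔ q T)) :
    (∀ᶠ T in l, p T) ↔ ∀ᶠ T in l, q T := by
  constructor
  · intro h1
    filter_upwards [h1, hl (eventually_ge_atTop 10)] with T g1 g2 using (h T g2).1 g1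
  · intro h1
    filter_upwards [h1, hl (eventually_ge_atTop 10)] with T g1 g2 using (h T g2).2 g1

lemma N_le {T : ℝ} (hT : 10 ≤ T) (δ c : ℝ) :
    (N T (-δ) δ : ℝ) ≤ c * X T ↔ Pool.Agent.Zk99.PR.PP T δ ≤ c := by
  rw [N_PP hT]
  exact mul_le_mul_iff_left₀ (X_pos hT)

/-- **Theorem.** -/
theorem result (l : Filter ℝ) (hl : l ≤ atTop) :
    -- (1) repulsion with exponent `θ` and long averages of the form factor
    (∀ θ : ℝ, 0 < θ → θ < 2 →
      ((∃ C : ℝ, ∀ δ : ℝ, 0 < δ → δ ≤ 1 → ∀ ε : ℝ, 0 < ε → ∀ᶠ T in l,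
          (N T (-δ) δ : ℝ) ≤ (1 + C * δ ^ θ + ε) * X T) ↔
        (∃ C : ℝ, ∀ L : ℝ, 1 ≤ L → ∀ ε : ℝ, 0 < ε → ∀ᶠ T in l,
          ∫ α in (0 : ℝ)..L, (L - α) * F α T ≤ L ^ 2 / 2 + C * L ^ (2 - θ) + ε)) ∧
      ((∀ η : ℝ, 0 < η → ∃ δ₀ : ℝ, 0 < δ₀ ∧ ∀ δ : ℝ, 0 < δ → δ ≤ δ₀ → ∀ᶠ T in l,
          (N T (-δ) δ : ℝ) ≤ (1 + η * δ ^ θ) * X T) ↔
        (∀ η : ℝ, 0 < η → ∃ L₀ : ℝ, 1 ≤ L₀ ∧ ∀ L : ℝ, L₀ ≤ L → ∀ᶠ T in l,
          ∫ α in (0 : ℝ)..L, (L - α) * F α T ≤ L ^ 2 / 2 + η * L ^ (2 - θ)))) ∧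
    -- (2) the pair correlation conjecture is equivalent to its lower half for the form factor
    -- together with weak repulsion
    (RiemannHypothesis → (PairCorrelation l ↔
      (∀ a b : ℝ, 1 ≤ a → a < b → ∀ ε : ℝ, 0 < ε → ∀ᶠ T in l,
        b - a - ε ≤ ∫ α in a..b, F α T) ∧
      (∀ η : ℝ, 0 < η → ∃ δ₀ : ℝ, 0 < δ₀ ∧ ∀ δ : ℝ, 0 < δ → δ ≤ δ₀ → ∀ᶠ T in l,
        (N T (-δ) δ : ℝ) ≤ (1 + η * δ) * X T))) ∧
    -- (3) if the lower half holds, then plain averages of `F` correspond to repulsion, `0 < θ ≤ 1`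
    (RiemannHypothesis →
      (∀ a b : ℝ, 1 ≤ a → a < b → ∀ ε : ℝ, 0 < ε → ∀ᶠ T in l,
        b - a - ε ≤ ∫ α in a..b, F α T) →
      ∀ θ : ℝ, 0 < θ → θ ≤ 1 →
      ((∃ C : ℝ, ∀ δ : ℝ, 0 < δ → δ ≤ 1 → ∀ ε : ℝ, 0 < ε → ∀ᶠ T in l,
          (N T (-δ) δ : ℝ) ≤ (1 + C * δ ^ θ + ε) * X T) ↔
        (∃ C : ℝ, ∀ b : ℝ, 1 ≤ b → ∀ ε : ℝ, 0 < ε → ∀ᶠ T in l,
          ∫ α in (0 : ℝ)..b, F α T ≤ b + C * b ^ (1 - θ) + ε))) ∧
    -- (4) the lower half of the strong conjecture with weak repulsion: convergence in `L¹`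
    (RiemannHypothesis →
      (∀ A ε : ℝ, 1 < A → 0 < ε → ∀ᶠ T in l, ∀ α ∈ Set.Icc 1 A, 1 - ε ≤ F α T) →
      (∀ η : ℝ, 0 < η → ∃ δ₀ : ℝ, 0 < δ₀ ∧ ∀ δ : ℝ, 0 < δ → δ ≤ δ₀ → ∀ᶠ T in l,
        (N T (-δ) δ : ℝ) ≤ (1 + η * δ) * X T) →
      ∀ A : ℝ, 1 < A → Tendsto (fun T => ∫ α in (1 : ℝ)..A, |F α T - 1|) l (𝓝 0)) := by
  have hr : (∀ η : ℝ, 0 < η → ∃ δ₀ : ℝ, 0 < δ₀ ∧ ∀ δ : ℝ, 0 < δ → δ ≤ δ₀ → ∀ᶠ T in l,
        (N T (-δ) δ : ℝ) ≤ (1 + η * δ) * X T) ↔ Pool.Agent.Zk99.PR.Repo l 1 := by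
    unfold Pool.Agent.Zk99.PR.Repo
    refine forall_congr' fun η => forall_congr' fun _ => exists_congr fun δ₀ =>
      and_congr_right fun _ => forall_congr' fun δ => forall_congr' fun _ =>
        forall_congr' fun _ => ev_iff hl fun T hT => ?_
    rw [N_le hT, Real.rpow_one]
  have hlowh : (∀ a b : ℝ, 1 ≤ a → a < b → ∀ ε : ℝ, 0 < ε → ∀ᶠ T in l,
      b - a - ε ≤ ∫ α in a..b, F α T) ↔ Pool.Agent.Zk99.PR.LowHalf l := by
    unfold Pool.Agent.Zk99.PR.LowHalf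
    refine forall_congr' fun a => forall_congr' fun b => forall_congr' fun _ =>
      forall_congr' fun _ => forall_congr' fun ε => forall_congr' fun _ =>
        ev_iff hl fun T hT => ?_
    rw [int_F hT]
  refine ⟨fun θ hθ hθ2 => ⟨?_, ?_⟩, ?_, ?_, ?_⟩
  · have h1 : (∃ C : ℝ, ∀ δ : ℝ, 0 < δ → δ ≤ 1 → ∀ ε : ℝ, 0 < ε → ∀ᶠ T in l,
          (N T (-δ) δ : ℝ) ≤ (1 + C * δ ^ θ + ε) * X T) ↔ Pool.Agent.Zk99.PR.RepO l θ := by
      unfold Pool.Agent.Zk99.PR.RepO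
      refine exists_congr fun C => forall_congr' fun δ => forall_congr' fun _ =>
        forall_congr' fun _ => forall_congr' fun ε => forall_congr' fun _ =>
          ev_iff hl fun T hT => ?_
      rw [N_le hT]
    have h2 : (∃ C : ℝ, ∀ L : ℝ, 1 ≤ L → ∀ ε : ℝ, 0 < ε → ∀ᶠ T in l,
          ∫ α in (0 : ℝ)..L, (L - α) * F α T ≤ L ^ 2 / 2 + C * L ^ (2 - θ) + ε) ↔
        Pool.Agent.Zk99.PR.FejO l θ := by
      unfold Pool.Agent.Zk99.PR.FejO
      refine exists_congr fun C => forall_congr' fun L => forall_congr' fun _ =>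
        forall_congr' fun ε => forall_congr' fun _ => ev_iff hl fun T hT => ?_
      rw [FJ_F hT]
    rw [h1, h2]
    exact Pool.Agent.Zk99.PR.O_iff hl hθ hθ2
  · have h1 : (∀ η : ℝ, 0 < η → ∃ δ₀ : ℝ, 0 < δ₀ ∧ ∀ δ : ℝ, 0 < δ → δ ≤ δ₀ → ∀ᶠ T in l,
          (N T (-δ) δ : ℝ) ≤ (1 + η * δ ^ θ) * X T) ↔ Pool.Agent.Zk99.PR.Repo l θ := by
      unfold Pool.Agent.Zk99.PR.Repo
      refine forall_congr' fun η => forall_congr' fun _ => exists_congr fun δ₀ =>
        and_congr_right fun _ => forall_congr' fun δ => forall_congr' fun _ =>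
          forall_congr' fun _ => ev_iff hl fun T hT => ?_
      rw [N_le hT]
    have h2 : (∀ η : ℝ, 0 < η → ∃ L₀ : ℝ, 1 ≤ L₀ ∧ ∀ L : ℝ, L₀ ≤ L → ∀ᶠ T in l,
          ∫ α in (0 : ℝ)..L, (L - α) * F α T ≤ L ^ 2 / 2 + η * L ^ (2 - θ)) ↔
        Pool.Agent.Zk99.PR.Fejo l θ := by
      unfold Pool.Agent.Zk99.PR.Fejo
      refine forall_congr' fun η => forall_congr' fun _ => exists_congr fun L₀ =>
        and_congr_right fun _ => forall_congr' fun L => forall_congr' fun _ =>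
          ev_iff hl fun T hT => ?_
      rw [FJ_F hT]
    rw [h1, h2]
    exact Pool.Agent.Zk99.PR.o_iff hl hθ hθ2
  · intro RH
    rw [hr, hlowh]
    exact Pool.Agent.Zk99.PR.mont_iff RH hl
  · intro RH h1 θ hθ hθ1
    have h2 : (∃ C : ℝ, ∀ δ : ℝ, 0 < δ → δ ≤ 1 → ∀ ε : ℝ, 0 < ε → ∀ᶠ T in l,
          (N T (-δ) δ : ℝ) ≤ (1 + C * δ ^ θ + ε) * X T) ↔ Pool.Agent.Zk99.PR.RepO l θ := by
      unfold Pool.Agent.Zk99.PR.RepO
      refine exists_congr fun C => forall_congr' fun δ => forall_congr' fun _ =>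
        forall_congr' fun _ => forall_congr' fun ε => forall_congr' fun _ =>
          ev_iff hl fun T hT => ?_
      rw [N_le hT]
    have h3 : (∃ C : ℝ, ∀ b : ℝ, 1 ≤ b → ∀ ε : ℝ, 0 < ε → ∀ᶠ T in l,
          ∫ α in (0 : ℝ)..b, F α T ≤ b + C * b ^ (1 - θ) + ε) ↔ Pool.Agent.Zk99.PR.MeanO l θ := by
      unfold Pool.Agent.Zk99.PR.MeanO
      refine exists_congr fun C => forall_congr' fun b => forall_congr' fun _ =>
        forall_congr' fun ε => forall_congr' fun _ => ev_iff hl fun T hT => ?_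
      rw [int_F hT]
    rw [h2, h3]
    exact Pool.Agent.Zk99.PR.mean_iff RH hl (hlowh.1 h1) hθ hθ1
  · intro RH hlow hrep A hA
    have h1 := Pool.Agent.Zk99.PR.l1_lim RH hl (fun A ε hA hε => by
      filter_upwards [hlow A ε hA hε, hl (eventually_ge_atTop 10)] with T g1 g2 α hα
      rw [← F_eq g2]
      exact g1 α hα) (hr.1 hrep) hA
    refine h1.congr' ?_
    filter_upwards [hl (eventually_ge_atTop 10)] with T hT
    refine intervalIntegral.integral_congr fun α _ => ?_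
    show |Pool.Agent.Y749.Rig.Fr T α - 1| = |F α T - 1|
    rw [F_eq hT]

end Pool.Agent.Results.MP_00e05b_nt.LowerHalfAndRepulsion
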