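import Pool.Agent.Zk99.NV.G

/-!
# The lower half of pair correlation and the number variance of the zeros

Let `F(α, T)` be Montgomery's function, `N(t)` the number of the zeros with ordinate in `(0, t]`,
`V(λ, T) = (1 / T) ∫_0^T (N(t + 2πλ / log T) - N(t) - λ)² dt` the number variance of the zeros at
`λ` times the mean spacing, and `G(λ)` the number variance of the Gaussian unitary ensemble.

Assume RH. The lower half of the pair correlation conjecture (in the mean) is the statement that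
`liminf ∫_a^b F(α, T) dα ≥ b - a` for all `1 ≤ a < b`. We show that the lower half implies that
`V(λ, T)` is asymptotically at least `G(λ)` for every `λ`, and that for every `λ > 0` a positive
proportion of the normalised spacings is smaller than `λ`; and that the pair correlation conjecture
is equivalent to the lower half together with `limsup V ≤ G` at only two scales with irrational
ratio, or together with the asymptotic upper bound for the integral of `F` against one single
positive kernel.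

Idea of the proof. Up to `o(1)`, `V(λ, T) + λ²` is the average over the pairs of the tent of length
`λ`, that is the integral of `F` against `λ² (sin πλα / πλα)²`, a nonnegative kernel whose zeros are
the multiples of `1 / λ`. If the integral of `F` against a positive kernel is not larger than
conjectured and the integrals of `F` over all intervals are not smaller, then they are not larger
either.
-/

set_option autoImplicit false

open Filter Topology MeasureTheory
open Complex (I)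

namespace Pool.Agent.Results.MP_00e05b_nt.VarianceAtTwoScales

/-- the nontrivial zeros of `ζ` with ordinate in `(0, T]` -/
def zeros (T : ℝ) : Set ℂ :=
  {s : ℂ | 0 < s.re ∧ s.re < 1 ∧ 0 < s.im ∧ s.im ≤ T ∧ riemannZeta s = 0}

/-- the multiplicity of `s` as a zero of `ζ` -/
noncomputable def mult (s : ℂ) : ℕ := analyticOrderNatAt riemannZeta s

/-- `N(t)`: the number of the zeros with ordinate in `(0, t]`, with multiplicity -/
noncomputable def N (t : ℝ) : ℕ := ∑ᶠ s ∈ zeros t, mult s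

/-- `(T / 2π) log T` -/
noncomputable def X (T : ℝ) : ℝ := T / (2 * Real.pi) * Real.log T

/-- Montgomery's function `F(α, T)`:
`((T/2π) log T)⁻¹ ∑_γ ∑_γ' T ^ (iα(γ - γ')) w(γ - γ')`, `w(u) = 4 / (4 + u²)`, over the ordinates of
the zeros in `(0, T]`, with multiplicity; it is real, `.re` only changes the type -/
noncomputable def F (α T : ℝ) : ℝ :=
  (((X T : ℝ) : ℂ)⁻¹ * ∑ᶠ s ∈ zeros T, ∑ᶠ s' ∈ zeros T,
    (mult s : ℂ) * (mult s' : ℂ) *
      ((T : ℂ) ^ (I * α * (s.im - s'.im)) * (4 / (4 + (s.im - s'.im) ^ 2)))).re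

/-- the number of the pairs `(γ, γ')` of ordinates in `(0, T]`, with multiplicity, with
`2πα / log T ≤ γ - γ' ≤ 2πβ / log T` (pairs with `γ = γ'` are included) -/
noncomputable def pairs (T α β : ℝ) : ℕ :=
  ∑ᶠ s ∈ zeros T, ∑ᶠ s' ∈ {s' : ℂ | s' ∈ zeros T ∧
    2 * Real.pi * α / Real.log T ≤ s.im - s'.im ∧ s.im - s'.im ≤ 2 * Real.pi * β / Real.log T},
      mult s * mult s'

/-- the density of the pair correlation conjecture:
`∫_α^β (1 - (sin πu / πu)²) du + δ(α, β)`, where `δ(α, β) = 1` if `0 ∈ [α, β]` and `0` otherwise -/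
noncomputable def P (α β : ℝ) : ℝ :=
  (∫ u in α..β, (1 - (Real.sin (Real.pi * u) / (Real.pi * u)) ^ 2)) +
    if α ≤ 0 ∧ 0 ≤ β then 1 else 0

/-- Montgomery's pair correlation conjecture along `l` (`l = atTop` is the conjecture; `l` may also
be the filter of a sequence of `T` tending to infinity) -/
def PairCorrelation (l : Filter ℝ) : Prop := ∀ α β : ℝ, α < β →
  Asymptotics.IsEquivalent l (fun T => (pairs T α β : ℝ)) (fun T => P α β * X T)

/-- the lower half of the conjecture, in the mean, along `l` -/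
def LowerHalf (l : Filter ℝ) : Prop := ∀ a b : ℝ, 1 ≤ a → a < b → ∀ ε : ℝ, 0 < ε →
  ∀ᶠ T in l, b - a - ε ≤ ∫ α in a..b, F α T

/-- the number variance of the zeros at `lam` times the mean spacing -/
noncomputable def V (lam T : ℝ) : ℝ :=
  (1 / T) * ∫ t in (0 : ℝ)..T, ((N (t + 2 * Real.pi * lam / Real.log T) : ℝ) - N t - lam) ^ 2

/-- the number variance of the Gaussian unitary ensemble at `lam` times the mean spacing -/
noncomputable def G (lam : ℝ) : ℝ :=
  lam - 2 * ∫ u in (0 : ℝ)..lam, (lam - u) * (Real.sin (Real.pi * u) / (Real.pi * u)) ^ 2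

/-- the `n`-th ordinate (`n ≥ 1`), in nondecreasing order, with multiplicity -/
noncomputable def γ (n : ℕ) : ℝ := sInf {t : ℝ | n ≤ N t}

/-- the `n`-th normalised spacing -/
noncomputable def d (n : ℕ) : ℝ :=
  (γ (n + 1) * Real.log (γ (n + 1)) - γ n * Real.log (γ n)) / (2 * Real.pi)

/-- the kernels: even, continuous, nonnegative, positive on `(0, ∞)`, and `O(1 / (1 + x²))`
together with their Fourier transforms -/
def Kernel (K : ℝ → ℝ) : Prop := Continuous K ∧ (∀ x, K (-x) = K x) ∧ (∀ x, 0 ≤ K x) ∧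
  (∀ x, 0 < x → 0 < K x) ∧ (∃ C : ℝ, ∀ x, K x ≤ C / (1 + x ^ 2)) ∧
  ∃ C : ℝ, ∀ x, |∫ α, K α * Real.cos (2 * Real.pi * α * x)| ≤ C / (1 + x ^ 2)

lemma F_eq {T : ℝ} (hT : 10 ≤ T) (α : ℝ) : F α T = Pool.Agent.Y749.Rig.Fr T α := by
  have h := Pool.Agent.Y749.Rig.P.F_eq hT α
  have h2 : F α T = (Pool.Agent.Y749.Rig.P.F T α).re := rfl
  rw [h2, h, Complex.ofReal_re]

lemma int_F {T : ℝ} (hT : 10 ≤ T) (a b : ℝ) :
    ∫ α in a..b, F α T = ∫ α in a..b, Pool.Agent.Y749.Rig.Fr T α :=
  intervalIntegral.integral_congr fun α _ => F_eq hT α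

lemma ev_iff {l : Filter ℝ} (hl : l ≤ atTop) {p q : ℝ → Prop} (h : ∀ T, 10 ≤ T → (p T ↔ q T)) :
    (∀ᶠ T in l, p T) ↔ ∀ᶠ T in l, q T := by
  constructor
  · intro h1
    filter_upwards [h1, hl (eventually_ge_atTop 10)] with T g1 g2 using (h T g2).1 g1
  · intro h1
    filter_upwards [h1, hl (eventually_ge_atTop 10)] with T g1 g2 using (h T g2).2 g1

lemma low_iff {l : Filter ℝ} (hl : l ≤ atTop) : LowerHalf l ↔ Pool.Agent.Zk99.PR.LowHalf l := by
  unfold LowerHalf Pool.Agent.Zk99.PR.LowHalf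
  refine forall_congr' fun a => forall_congr' fun b => forall_congr' fun _ =>
    forall_congr' fun _ => forall_congr' fun ε => forall_congr' fun _ =>
      ev_iff hl fun T hT => ?_
  rw [int_F hT]

lemma zeros_ZT (T : ℝ) : zeros T = Pool.Agent.Zk99.NV.ZT Pool.Agent.Zk99.NV.Z0 T := by
  ext s
  constructor
  · rintro ⟨h1, h2, h3, h4, h5⟩
    exact ⟨⟨h1, h2, h5⟩, h3, h4⟩
  · rintro ⟨⟨h1, h2, h5⟩, h3, h4⟩
    exact ⟨h1, h2, h3, h4, h5⟩

lemma N_NN (t : ℝ) :
    (N t : ℝ) = Pool.Agent.Zk99.NV.NN Pool.Agent.Zk99.NV.Z0 Pool.Agent.Y749.Rig.mm t := by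
  unfold N Pool.Agent.Zk99.NV.NN
  rw [zeros_ZT, finsum_mem_eq_finite_toFinset_sum _ (Pool.Agent.Zk99.NV.ZT_fin t),
    finsum_mem_eq_finite_toFinset_sum _ (Pool.Agent.Zk99.NV.ZT_fin t)]
  push_cast
  rfl

lemma N_NZ (t : ℝ) : N t = SG.NZ t := by
  unfold N SG.NZ
  have h : zeros t = {s : ℂ | riemannZeta s = 0 ∧ 0 < s.re ∧ s.re < 1 ∧ 0 < s.im ∧ s.im ≤ t} := by
    ext s
    constructor
    · rintro ⟨h1, h2, h3, h4, h5⟩
      exact ⟨h5, h1, h2, h3, h4⟩
    · rintro ⟨h5, h1, h2, h3, h4⟩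
      exact ⟨h1, h2, h3, h4, h5⟩
  rw [h]
  rfl

lemma d_dj (n : ℕ) : d n = Pool.Agent.Y749.AH.dj n := by
  have h : ∀ n : ℕ, γ n = SG.ord n := by
    intro n
    unfold γ
    have : {t : ℝ | n ≤ N t} = {t : ℝ | n ≤ SG.NZ t} := by
      ext t
      simp only [Set.mem_ofPred_eq, N_NZ]
    rw [this]
    rfl
  unfold d
  rw [h, h]
  unfold Pool.Agent.Y749.AH.dj Pool.Agent.Y749.AH.gt
  ring

lemma V_lim {c : ℝ} (hc : 0 < c) :
    Tendsto (fun T => V c T - c ^ 2 * Pool.Agent.Zk99.NV.tav T c) atTop (𝓝 (-c ^ 2)) := by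
  have h := Pool.Agent.Zk99.NV.var_tav hc
  refine h.congr fun T => ?_
  unfold V
  simp_rw [N_NN]

lemma ker_of {K : ℝ → ℝ} (h : Kernel K) : Pool.Agent.Zk99.NV.Ker K := by
  obtain ⟨h1, h2, h3, -, ⟨C, hC⟩, -⟩ := h
  refine ⟨h1, h3, h2, ?_⟩
  refine Pool.Agent.Y749.Rig.qd_int h1 ⟨C, fun x => ?_⟩
  rw [abs_of_nonneg (h3 x)]
  exact hC x

/-- **Theorem.** -/
theorem result (hRH : RiemannHypothesis) (l : Filter ℝ) (hl : l ≤ atTop) :
    -- (1) the lower half gives a large number variance at every scale, and small spacings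
    (LowerHalf l → ∀ lam : ℝ, 0 < lam →
      (∀ ε : ℝ, 0 < ε → ∀ᶠ T in l, G lam - ε ≤ V lam T) ∧
      ∃ c : ℝ, 0 < c ∧ ∀ᶠ T in l,
        c * N T ≤ ({j : ℕ | 1 ≤ j ∧ j ≤ N T ∧ d j < lam}.ncard : ℝ)) ∧
    -- (2) the conjecture, the lower half and the number variance at two scales
    (∀ lam mu : ℝ, 0 < lam → 0 < mu → Irrational (lam / mu) →
      (PairCorrelation l ↔ LowerHalf l ∧
        ∀ ε : ℝ, 0 < ε → ∀ᶠ T in l, V lam T ≤ G lam + ε ∧ V mu T ≤ G mu + ε)) ∧
    -- (3) the conjecture, the lower half and one positive kernel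
    (∀ K : ℝ → ℝ, Kernel K →
      (PairCorrelation l ↔ LowerHalf l ∧
        ∀ ε : ℝ, 0 < ε → ∀ᶠ T in l,
          ∫ α, K α * F α T ≤ K 0 + (∫ α, min |α| 1 * K α) + ε)) := by
  refine ⟨fun hlo lam hlam => ⟨fun ε hε => ?_, ?_⟩, fun lam mu hlam hmu hir => ?_,
    fun K hK => ?_⟩
  · exact Pool.Agent.Zk99.NV.var_low hRH hl ((low_iff hl).1 hlo) (V := fun T c => V c T)
      (fun c hc => V_lim hc) hlam hε
  · obtain ⟨c, hc, h⟩ := Pool.Agent.Zk99.NV.gaps_pos hRH hl ((low_iff hl).1 hlo) hlam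
    refine ⟨c, hc, ?_⟩
    filter_upwards [h] with T hT
    simp only [N_NZ, d_dj]
    exact hT
  · have h := Pool.Agent.Zk99.NV.mont_two hRH hl hlam hmu hir (V := fun T c => V c T)
      (fun c hc => V_lim hc)
    rw [low_iff hl]
    refine Iff.trans h (and_congr_right fun _ => ?_)
    constructor
    · rintro ⟨h1, h2⟩ ε hε
      exact (h1 ε hε).and (h2 ε hε)
    · intro h1
      exact ⟨fun ε hε => (h1 ε hε).mono fun _ h => h.1, fun ε hε => (h1 ε hε).mono fun _ h => h.2⟩
  · have hker := ker_of hK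
    obtain ⟨-, -, -, hpos, -, hq⟩ := hK
    have h := Pool.Agent.Zk99.NV.mont_ker hRH hl hker hq hpos
    rw [low_iff hl]
    refine Iff.trans h (and_congr_right fun _ => forall_congr' fun ε => forall_congr' fun _ =>
      ev_iff hl fun T hT => ?_)
    have e1 : ∫ α, K α * F α T = ∫ α, K α * Pool.Agent.Y749.Rig.Fr T α := by
      refine integral_congr_ae (ae_of_all _ fun α => ?_)
      show K α * F α T = K α * Pool.Agent.Y749.Rig.Fr T α
      rw [F_eq hT]
    have e2 : ∫ α, min |α| 1 * K α = ∫ α, K α * Pool.Agent.Y749.Rig.mn α := by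
      refine integral_congr_ae (ae_of_all _ fun α => ?_)
      show min |α| 1 * K α = K α * min |α| 1
      ring
    rw [e1, e2]

end Pool.Agent.Results.MP_00e05b_nt.VarianceAtTwoScales
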